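import Pool.Agent.R489.HB.Stm

/-! HB-ROOT: rooted forests. -/

namespace Pool.Agent.R374.HB

open SimpleGraph

theorem ROOT : Pool.Agent.R489.HB.S_ROOT := by
  classical
  intro V _ F hF
  have h1 : ∀ c : F.ConnectedComponent, ∃ v, F.connectedComponentMk v = c := fun c => c.exists_rep
  choose ρ hρ using h1
  have h2 : ∀ (c : F.ConnectedComponent) (u : V), F.connectedComponentMk u = c →
      ∃ p : F.Walk (ρ c) u, p.IsPath := by
    intro c u hu
    have : F.Reachable (ρ c) u := ConnectedComponent.exact ((hρ c).trans hu.symm)
    exact this.exists_isPath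
  choose P hP using h2
  have key : ∀ (c : F.ConnectedComponent) (u w : V) (hu : F.connectedComponentMk u = c)
      (hw : F.connectedComponentMk w = c) (hadj : F.Adj w u), u ∉ (P c w hw).support →
      P c u hu = (P c w hw).concat hadj := by
    intro c u w hu hw hadj hnot
    have := hF.path_unique ⟨P c u hu, hP c u hu⟩
      ⟨(P c w hw).concat hadj, (hP c w hw).concat hnot hadj⟩
    exact congrArg Subtype.val this
  have hpen : ∀ (c : F.ConnectedComponent) (u : V) (hu : F.connectedComponentMk u = c),
      (P c u hu).penultimate = (P (F.connectedComponentMk u) u rfl).penultimate ∧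
      (P c u hu).length = (P (F.connectedComponentMk u) u rfl).length := by
    intro c u hu
    subst hu
    exact ⟨rfl, rfl⟩
  have hres : ∀ (u w : V) (c : F.ConnectedComponent) (hu : F.connectedComponentMk u = c)
      (hw : F.connectedComponentMk w = c), F.Adj w u → u ∉ (P c w hw).support →
      (P (F.connectedComponentMk u) u rfl).penultimate = w ∧
      (P (F.connectedComponentMk u) u rfl).length =
        (P (F.connectedComponentMk w) w rfl).length + 1 := by
    intro u w c hu hw hadj hnot
    rw [← (hpen c u hu).1, ← (hpen c u hu).2, ← (hpen c w hw).2, key c u w hu hw hadj hnot]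
    exact ⟨Walk.penultimate_concat _ _, Walk.length_concat _ _⟩
  refine ⟨fun u => (P (F.connectedComponentMk u) u rfl).penultimate,
    fun u => (P (F.connectedComponentMk u) u rfl).length, fun u w hadj => ?_⟩
  have hcw : F.connectedComponentMk w = F.connectedComponentMk u :=
    ConnectedComponent.sound hadj.symm.reachable
  by_cases hnot : u ∉ (P (F.connectedComponentMk u) w hcw).support
  · left
    exact hres u w _ rfl hcw hadj.symm hnot
  · right
    push Not at hnot
    refine hres w u _ hcw rfl hadj ?_
    have h3 : P (F.connectedComponentMk u) u rfl =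
        (P (F.connectedComponentMk u) w hcw).takeUntil u hnot := by
      have := hF.path_unique ⟨P (F.connectedComponentMk u) u rfl, hP _ u rfl⟩
        ⟨(P (F.connectedComponentMk u) w hcw).takeUntil u hnot, (hP _ w hcw).takeUntil hnot⟩
      exact congrArg Subtype.val this
    rw [h3]
    exact Walk.endpoint_notMem_support_takeUntil (hP _ w hcw) hnot hadj.ne'

end Pool.Agent.R374.HB
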